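import Pool.Agent.H367.OS.GEul
import Pool.Agent.H367.OS.Fld

/-!
# The Tauberian Tate conjecture and one sequence of cubics over the integers

A relation `r` of size `m` is one of the equations `x_i x_j = x_l`, `x_i + x_j = x_l`, `x_i = 1` with
`i, j, l < m`; the relations are numbered, the number of `r` is `ν(r)` (`relNum`). Let `G_m` be the
following polynomial with integral coefficients (`univG ℤ m`). There are variables `x_i` and `z_ij` for
`i, j < m`, a variable `c_r` for every relation `r`, and variables `y_{r,l}` for all relations `r` and
`l < (m + 1) 2 ^ ν(r)`. The equations (`eqnG`) are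

  `z_ij - x_i x_j`,  `c_r ^ 2 - c_r`,  `c_r ρ_r`,  `(1 - c_r) y_{r,l}`,

where `ρ_r` is the linear polynomial `z_ij - x_l`, `x_i + x_j - x_l` or `x_i - 1` of the relation.
`G_m` is the sum of the equations multiplied by further variables `t_e`, one for each equation. It has
degree three. Let `C_m` be the affine cubic hypersurface `G_m = 1` (`cubG R m` over the ring `R`); it is
smooth over the integers.

Fix a prime number `ℓ`. For a separated scheme `X` of finite type over `ℚ` and `q ∈ ℤ` let

* `f q X T = T⁻¹ ∑_{p ≤ T, p ≠ ℓ} b_{p,q}(X) (log p) / p^q` with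
  `b_{p,q}(X) = ∑_j (-1)^j Tr(Frob_p | (Gr^W_{2q} H^j_c(X, ℚ_ℓ))^{I_p})`;
* `χ q X = ∑_j (-1)^j dim Hom(1, Gr^W_{2q} H^j_c(X)(q))`, in the category of motives over `ℚ` in the sense
  of André, which is semisimple.

For smooth projective `Y` these are the averages of the traces of the Frobenius elements on `H^{2q}(Y,
ℚ_ℓ(q))` and, for `q = 1`, the rank of `NS(Y/ℚ)` (for general `q`, the dimension of the space of the
motivated classes over `ℚ`). `Formula f χ q X` says that `f q X T` tends to `χ q X` for `T → ∞`.

Let `Q1 K V` be the formula of question Q1 for the smooth projective variety `V` over the number field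
`K`. It is equivalent to `Formula f χ 1 (resQ K V)`, where `resQ K V` is `V` regarded as a scheme over
`ℚ`: the primes of degree at least two do not contribute to the limit, and the cohomology of `resQ K
V` is the induced representation (hypothesis `Describes`).

**Theorem.** Let `E_m` be the number of the equations, and for `N ∈ ℕ` let
`idx m q N = q + (m + 1) N + E_m - 1`.

(1) Question Q1 has a positive answer for all smooth projective varieties over all number fields if
and only if, for infinitely many `m`, the formula with the index `idx m 1 N` is true for the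
hypersurface `C_m` over `ℚ`, for all `N`.

(2) For every smooth projective variety `V` over a number field and all large `m` there is a number
`e` such that the formula of question Q1 for `V` is equivalent to the single formula with the index
`e` for `C_m`.

(3) For every `q`, the formula with the index `q` is true for all smooth projective varieties over `ℚ`
if and only if for infinitely many `m` the formulas with the indices `idx m q N` are true for `C_m`,
for all `N`. The hypersurfaces `C_m` decide the statements (`Decides`): for every affine scheme `Spec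
B` of finite type over `ℚ` and all large `m` there is an `N` such that for `0 ≤ n ≤ m` the statement
with the index `n` for `Spec B` is equivalent to the one with the index `idx m n N` for `C_m`; and for
every separated scheme `X` of finite type and all large `m`, the statements for `C_m` imply the
statements for `X`.

(4) For `q = 0` the formulas are known (Landau, Chebotarev), so the formulas with the indices `idx m 0
N` are true for `C_m`, for all `m` and `N`.

(5) `G_m` has integral coefficients and degree at most three, and `C_m` is smooth over all rings.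

The invariants `f q X - χ q X` are considered modulo functions with the limit `0` (`inv f χ`). The
hypotheses on the invariants are standard (`IsEuler`): they are additive for closed-open
decompositions; affine bundles shift the index; the invariants of `X` are zero for `q < 0` and `q >
dim X`; every smooth projective scheme has an affine bundle whose total space is affine (Jouanolou);
the class of every `X` is an integral combination of classes of smooth projective schemes (Hironaka).

Idea of the proof. The projection of `C_m` to the affine space with the coordinates `x, z, c, y` is an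
affine bundle over the complement of the zero set `W_m` of the equations. The scheme `W_m` is the
disjoint union, over all sets `s` of relations (`c_r = 1` for `r ∈ s` and `c_r = 0` for the others), of
the products `X_s × 𝔸 ^ ((m + 1) N(s))`, where `X_s` is the affine scheme defined by the relations in
`s` and `N(s) = ∑_{r ∈ s} 2 ^ ν(r)`. The numbers `N(s)` are different, and the dimension of `X_s` is at
most `m`. So the invariant of `W_m` with the index `q + (m + 1) N(s)`, `0 ≤ q ≤ m`, is the invariant of
`X_s` with the index `q`; the other components do not contribute. Every affine scheme of finite type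
over a prime field is an `X_s`, for all large `m`.

The universal system of relations is the one of helper854 (`Pool.Agent.H854.SQ`).
-/

set_option autoImplicit false

open CategoryTheory CategoryTheory.Limits AlgebraicGeometry Pool.Agent.Y116.UV Pool.Agent.Z125.UN
  Pool.Agent.Q193.LT Pool.Agent.H854.SQ Pool.Agent.H367.OS

namespace Pool.Agent.Results.MP_4589ac_nt.OneSequenceOverTheIntegers

/-- The sequences with the limit zero. -/
def nullSeq : AddSubgroup (ℕ → ℝ) where
  carrier := {g | Filter.Tendsto g Filter.atTop (nhds 0)}
  zero_mem' := tendsto_const_nhds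
  add_mem' := fun {a b} ha hb => by
    have h := Filter.Tendsto.add ha hb
    rwa [add_zero] at h
  neg_mem' := fun {a} ha => by
    have h := Filter.Tendsto.neg ha
    rwa [neg_zero] at h

/-- The differences `f q X - χ q X` modulo null sequences. -/
def inv (f : ℤ → Sch ℚ → ℕ → ℝ) (χ : ℤ → Sch ℚ → ℤ) (q : ℤ) (X : Sch ℚ) :
    (ℕ → ℝ) ⧸ nullSeq := QuotientAddGroup.mk fun T => f q X T - χ q X

/-- The averages tend to the rank. -/
def Formula (f : ℤ → Sch ℚ → ℕ → ℝ) (χ : ℤ → Sch ℚ → ℤ) (q : ℤ) (X : Sch ℚ) : Prop :=
  Filter.Tendsto (f q X) Filter.atTop (nhds (χ q X))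

lemma inv_eq (f : ℤ → Sch ℚ → ℕ → ℝ) (χ : ℤ → Sch ℚ → ℤ) (q : ℤ) (X : Sch ℚ) :
    inv f χ q X = 0 ↔ Formula f χ q X := by
  rw [inv, QuotientAddGroup.eq_zero_iff]
  change Filter.Tendsto (fun T => f q X T - χ q X) Filter.atTop (nhds 0) ↔ _
  exact tendsto_sub_nhds_zero_iff

/-- The statements for varieties over number fields, and for schemes over `ℚ`. -/
structure Describes (Q1 : ∀ (K : Type) [Field K] [NumberField K], Sch K → Prop)
    (f : ℤ → Sch ℚ → ℕ → ℝ) (χ : ℤ → Sch ℚ → ℤ) : Prop where
  rational : ∀ Y : Sch ℚ, SmoothProj Y → (Q1 ℚ Y ↔ Formula f χ 1 Y)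
  smoothProj : ∀ (K : Type) [Field K] [NumberField K] (V : Sch K), SmoothProj V →
    SmoothProj (resQ K V)
  induced : ∀ (K : Type) [Field K] [NumberField K] (V : Sch K), SmoothProj V →
    (Q1 K V ↔ Formula f χ 1 (resQ K V))

/-- **The Tauberian Tate conjecture and one sequence of cubic hypersurfaces over the integers.** See the
explanations above. -/
theorem result {f : ℤ → Sch ℚ → ℕ → ℝ} {χ : ℤ → Sch ℚ → ℤ} (hc : IsEuler (inv f χ))
    (point : ∀ q, Formula f χ q (aff ℚ ℚ))
    {Q1 : ∀ (K : Type) [Field K] [NumberField K], Sch K → Prop} (h : Describes Q1 f χ)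
    (artin : ∀ Y : Sch ℚ, SmoothProj Y → Formula f χ 0 Y) :
    ((∀ (K : Type) [Field K] [NumberField K] (V : Sch K), SmoothProj V → Q1 K V) ↔
      ∃ᶠ m in Filter.atTop, ∀ N : ℕ, Formula f χ (idx m 1 N) (cubG ℚ m)) ∧
    (∀ (K : Type) [Field K] [NumberField K] (V : Sch K), SmoothProj V → ∃ m₀ : ℕ, ∀ m, m₀ ≤ m →
      ∃ e : ℕ, (Q1 K V ↔ Formula f χ e (cubG ℚ m))) ∧
    Decides (Formula f χ) ∧
    (∀ m N : ℕ, Formula f χ (idx m 0 N) (cubG ℚ m)) ∧
    ∀ m : ℕ, (univG ℤ m).totalDegree ≤ 3 ∧
      ∀ (R : Type) [CommRing R], MvPolynomial.map (Int.castRingHom R) (univG ℤ m) = univG R m ∧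
        Smooth (cubG R m).hom := by
  have hF : Formula f χ = fun q X => inv f χ q X ∈ (⊥ : AddSubgroup ((ℕ → ℝ) ⧸ nullSeq)) := by
    funext q X
    exact propext ((inv_eq f χ q X).symm.trans AddSubgroup.mem_bot.symm)
  have hg : Graduated fun q X => inv f χ q X ∈ (⊥ : AddSubgroup ((ℕ → ℝ) ⧸ nullSeq)) :=
    hc.graduated ⊥ fun q => AddSubgroup.mem_bot.mpr ((inv_eq f χ q _).mpr (point q))
  have hd : Decides (Formula f χ) := by
    rw [hF]
    exact decides_gen isPrimeField_rat hg fun q g X hX => hc.generated q ⊥ g X hX
  have h1 : (∀ Y : Sch ℚ, SmoothProj Y → Formula f χ 1 Y) ↔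
      ∃ᶠ m in Filter.atTop, ∀ N : ℕ, Formula f χ (idx m 1 N) (cubG ℚ m) := by
    have h2 := (hd.index 1).out 1 0
    rwa [Nat.cast_one] at h2
  refine ⟨Iff.trans ⟨fun g Y hY => (h.rational Y hY).mp (g ℚ Y hY), fun g K _ _ V hV =>
    (h.induced K V hV).mpr (g _ (h.smoothProj K V hV))⟩ h1, fun K _ _ V hV => ?_, hd,
    fun m N => ?_, cubG_facts⟩
  · obtain ⟨m₀, hm⟩ := euler_proj isPrimeField_rat hc _ (h.smoothProj K V hV) 1
    refine ⟨m₀, fun m hm1 => ?_⟩
    obtain ⟨e, he⟩ := hm m hm1
    refine ⟨1 + e, ?_⟩
    have h2 := he 1 zero_le_one le_rfl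
    rw [h.induced K V hV, ← inv_eq, ← inv_eq]
    push_cast
    rw [h2, neg_eq_zero]
  · have h2 := known_indices (q := 0) hg (fun g X hX => hc.generated 0 ⊥ g X hX)
      (fun Y hY => by
        have h3 := artin Y hY
        rw [← inv_eq] at h3
        exact AddSubgroup.mem_bot.mpr h3) (Nat.zero_le m) N
    rw [← inv_eq]
    exact AddSubgroup.mem_bot.mp h2

end Pool.Agent.Results.MP_4589ac_nt.OneSequenceOverTheIntegers
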