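import Pool.Agent.H439.LS.TaubField

/-!
# A large sieve inequality for the Tauberian averages of the twists, in short intervals

Let `V` be a smooth projective variety over a number field `K` of degree `n` and
`P_v(T) = det(1 - Frob_v T | H^i(V)^{I_v})`, a polynomial of degree at most `N = dim H^i(V)`, read in the
complex numbers; the trace of the Frobenius is `-P_v'(0)`.  For `i = 2` the Tauberian Tate conjecture says
that `T⁻¹ ∑_{q_v ≤ T} (b_v / q_v) log q_v` tends to the rank of `NS(V/K)`.  Applied to `V` over abelian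
extensions of `K` it predicts that the averages `T⁻¹ ∑_{q_v ≤ T} (b_v / q_v) χ(q_v) q_v^{-it} log q_v`
twisted by a Dirichlet character `χ` and `q_v^{-it}` tend to zero except for finitely many characters `χ`
(those which occur in `NS(V) ⊗ ℂ`) and `t = 0`.  Nothing is known about the size of these sums for a
single `V`, beyond the trivial bound `n N + o(1)` for the averages.

The theorem bounds the mean square of these averages over arbitrary families of characters modulo
`q ≤ R` and heights `|t| ≤ R`, `R ≤ T^{1/40}`, by an absolute constant times `(n N)²`, whatever the number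
of the members of the family, over the primes with norm in `(A, T]`, `T - A ≥ T/R`, uniformly in `V`.
Hence for each `δ > 0` all but at most `C (n N/δ)²` of all these twisted averages, of the characters of
conductor at most `T^{1/40}`, are less than `δ`, at each `T`, and in each interval.
-/

set_option autoImplicit false

namespace Pool.Agent.Results.MP_4589ac_nt.TwistsShortIntervals

open NumberField IsDedekindDomain Polynomial

section
variable {K : Type} [Field K] [NumberField K]

/-- The sum of `t_v χ(q_v) q_v^{-(i/2 + iu)} log q_v` over the primes `v` of `K` with norm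
`A < q_v ≤ T`, where `t_v = -P_v'(0)` is the trace of the Frobenius. -/
noncomputable def S (P : HeightOneSpectrum (𝓞 K) → ℂ[X]) (i : ℕ) {q : ℕ}
    (χ : DirichletCharacter ℂ q) (u : ℝ) (A T : ℕ) : ℂ :=
  ∑ᶠ (v : HeightOneSpectrum (𝓞 K))
    (_ : A < Ideal.absNorm v.asIdeal ∧ Ideal.absNorm v.asIdeal ≤ T),
    -(P v).coeff 1 * χ (Ideal.absNorm v.asIdeal : ℕ) *
      ((Ideal.absNorm v.asIdeal : ℕ) : ℂ) ^ (-((i : ℂ) / 2 + u * Complex.I)) *
      Real.log (Ideal.absNorm v.asIdeal : ℕ)

/-- The polynomials `P_v` have constant term `1`, degree at most `N`, and the inverses of their zeros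
have absolute value at most `q_v^{i/2}`.  For `P_v = det(1 - Frob_v T | H^i(V)^{I_v})` and
`N = dim H^i(V)` this is the theorem of Deligne at the primes of good reduction; at the other primes it
is known for `i ≤ 2`, and in general one may put `P_v = 1` there. -/
structure HasWeights (P : HeightOneSpectrum (𝓞 K) → ℂ[X]) (N i : ℕ) : Prop where
  coeff_zero : ∀ v, (P v).coeff 0 = 1
  natDegree_le : ∀ v, (P v).natDegree ≤ N
  le_norm : ∀ v, ∀ z : ℂ, (P v).IsRoot z →
    ((Ideal.absNorm v.asIdeal : ℕ) : ℝ) ^ (-((i : ℝ) / 2)) ≤ ‖z‖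

end

/-- The Dirichlet characters `χ` modulo `q` and `ξ` modulo `r` agree on the integers coprime to `q r`; in
other words they are induced by the same primitive character. -/
def SamePrimitive {q r : ℕ} (χ : DirichletCharacter ℂ q) (ξ : DirichletCharacter ℂ r) : Prop :=
  ∀ n : ℕ, n.Coprime (q * r) → χ n = ξ n

/-- A finite family of Dirichlet characters `χ_j` modulo `q_j`, `1 ≤ q_j ≤ R`, and of heights `t_j`,
`|t_j| ≤ R`, such that the heights of two members whose characters are induced by the same primitive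
character differ by at least `D`.  For example all primitive characters modulo all `q ≤ R`, with
arbitrary heights, one for each character. -/
structure IsFamily {J : ℕ} (q : Fin J → ℕ) (χ : ∀ j, DirichletCharacter ℂ (q j)) (t : Fin J → ℝ)
    (R D : ℝ) : Prop where
  pos : ∀ j, 0 < q j
  le : ∀ j, (q j : ℝ) ≤ R
  abs_le : ∀ j, |t j| ≤ R
  sep : ∀ j k, j ≠ k → SamePrimitive (χ j) (χ k) → D ≤ |t j - t k|

/-- **A large sieve inequality for the twisted Tauberian averages in short intervals.**  There are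
absolute constants `C` and `T₀` such that for every number field `K` of degree `n`, all Euler factors
`P_v` of degree at most `N` and weight at most `i` over `K`, all `A < T` with `T ≥ T₀`, all `R ≥ 16` with
`R^40 ≤ T` and `T - A ≥ T/R`, and all families of characters and heights bounded by `R`, with
`D = T/(T - A)`,

`∑_j |∑_{A < q_v ≤ T} t_v χ_j(q_v) q_v^{-i/2 - i t_j} log q_v|² ≤ C (n N)² (T - A)²`. -/
theorem result : ∃ C T₀ : ℝ, 0 < C ∧
    ∀ (K : Type) [Field K] [NumberField K] (N i : ℕ) (P : HeightOneSpectrum (𝓞 K) → ℂ[X]),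
      HasWeights P N i → ∀ (A T : ℕ) (R : ℝ), A < T → T₀ ≤ T → 16 ≤ R → R ^ 40 ≤ T →
      (T : ℝ) / R ≤ T - A →
      ∀ (J : ℕ) (q : Fin J → ℕ) (χ : ∀ j, DirichletCharacter ℂ (q j)) (t : Fin J → ℝ),
        IsFamily q χ t R (T / (T - A)) →
        ∑ j, ‖S P i (χ j) (t j) A T‖ ^ 2 ≤
          C * (Module.finrank ℚ K * N) ^ 2 * ((T : ℝ) - A) ^ 2 := by
  open Pool.Agent.H439.LS Pool.Agent.TH339.MP in
  have hCT : 0 < CT := by
    unfold CT
    have := CS_pos
    have := CB_pos
    linarith
  refine ⟨2 * CT + 2, 60000 ^ 40, by linarith, ?_⟩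
  intro K _ _ N i P hP A T R hAT hT hR hRT hRA J q χ t hfam
  have hR0 : 0 < R := by linarith
  have hRA' : (T : ℝ) ≤ R * (T - A) := by
    rw [div_le_iff₀ hR0] at hRA
    linarith
  rcases Nat.eq_zero_or_pos N with hN | hN
  · -- no Euler factors
    subst hN
    have h1 : ∀ v, (P v).coeff 1 = 0 := fun v =>
      Polynomial.coeff_eq_zero_of_natDegree_lt (lt_of_le_of_lt (hP.natDegree_le v) one_pos)
    have h2 : ∀ j, S P i (χ j) (t j) A T = 0 := by
      intro j
      unfold S
      simp [h1]
    simp [h2]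
  obtain ⟨β, hβ, hev⟩ := exists_beta_all (K := K) (N := N) (i : ℝ) P hP.coeff_zero hP.natDegree_le
    hP.le_norm
  have hs : SpacedBy ((T : ℝ) / (T - A)) q (fun j => χ j) (fun j => -t j) :=
    ⟨hfam.pos, fun j k hjk hA => by
      have h := hfam.sep j k hjk hA
      have e : -t j - -t k = -(t j - t k) := by ring
      rw [e, abs_neg]
      exact h⟩
  have hmain := taub_field hβ hAT hT hs hR hfam.le (fun j => by rw [abs_neg]; exact hfam.abs_le j)
    hRT hRA' hN
  have hS : ∀ j, S P i (χ j) (t j) A T = SV β (χ j) (-t j) A T := by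
    intro j
    classical
    unfold S SV
    have hset : ∀ v : HeightOneSpectrum (𝓞 K), (A < Ideal.absNorm v.asIdeal ∧
        Ideal.absNorm v.asIdeal ≤ T) ↔ v ∈ (VT T : Finset (HeightOneSpectrum (𝓞 K))).filter
          (fun v => A < nm v ∧ nm v ≤ T) := by
      intro v
      rw [Finset.mem_filter]
      constructor
      · intro h
        exact ⟨mem_VT h.2, h⟩
      · intro h
        exact h.2
    have h3 : (∑ᶠ (v : HeightOneSpectrum (𝓞 K))
        (_ : A < Ideal.absNorm v.asIdeal ∧ Ideal.absNorm v.asIdeal ≤ T),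
        -(P v).coeff 1 * χ j (Ideal.absNorm v.asIdeal : ℕ) *
        ((Ideal.absNorm v.asIdeal : ℕ) : ℂ) ^ (-((i : ℂ) / 2 + t j * Complex.I)) *
        (Real.log (Ideal.absNorm v.asIdeal : ℕ) : ℂ)) =
        ∑ᶠ (v : HeightOneSpectrum (𝓞 K)) (_ : v ∈ (VT T : Finset (HeightOneSpectrum (𝓞 K))).filter
          (fun v => A < nm v ∧ nm v ≤ T)),
        -(P v).coeff 1 * χ j (Ideal.absNorm v.asIdeal : ℕ) *
        ((Ideal.absNorm v.asIdeal : ℕ) : ℂ) ^ (-((i : ℂ) / 2 + t j * Complex.I)) *
        (Real.log (Ideal.absNorm v.asIdeal : ℕ) : ℂ) := by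
      apply finsum_congr
      intro v
      exact finsum_congr_Prop (propext (hset v)) fun _ => rfl
    rw [h3]
    rw [finsum_mem_finset_eq_sum]
    apply Finset.sum_congr rfl
    intro v _
    have hpos : (0 : ℝ) < ((nm v : ℕ) : ℝ) := by
      rw [nm_eq, Nat.cast_pow]
      exact pow_pos (prime_pos _) _
    have hne : ((nm v : ℕ) : ℂ) ≠ 0 := by
      have := hpos.ne'
      exact_mod_cast this
    have h4 : ((nm v : ℕ) : ℂ) ^ (-((i : ℂ) / 2 + t j * Complex.I)) =
        ((((nm v : ℕ) : ℝ) ^ ((i : ℝ) / 2))⁻¹ : ℝ) * ph (-t j) (nm v) := by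
      unfold ph
      rw [show -((i : ℂ) / 2 + t j * Complex.I) = ((-((i : ℝ) / 2) : ℝ) : ℂ) +
        ((-t j : ℝ) : ℂ) * Complex.I by push_cast; ring, Complex.cpow_add _ _ hne,
        ← Complex.ofReal_natCast, ← Complex.ofReal_cpow hpos.le, Real.rpow_neg hpos.le]
    have h5 := coeff_one_eq v (hev v)
    change -(P v).coeff 1 * χ j (nm v : ℕ) *
      ((nm v : ℕ) : ℂ) ^ (-((i : ℂ) / 2 + t j * Complex.I)) * (Real.log (nm v : ℕ) : ℂ) = _
    rw [h4, h5]
    unfold tr
    rw [← Finset.sum_mul]
    have h6 : ((((nm v : ℕ) : ℝ) ^ ((i : ℝ) / 2) : ℝ) : ℂ) *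
        (((((nm v : ℕ) : ℝ) ^ ((i : ℝ) / 2))⁻¹ : ℝ) : ℂ) = 1 := by
      rw [← Complex.ofReal_mul, mul_inv_cancel₀ (Real.rpow_pos_of_pos hpos _).ne',
        Complex.ofReal_one]
    calc _ = (∑ j, β v j) * (((((nm v : ℕ) : ℝ) ^ ((i : ℝ) / 2) : ℝ) : ℂ) *
        (((((nm v : ℕ) : ℝ) ^ ((i : ℝ) / 2))⁻¹ : ℝ) : ℂ)) * (χ j (nm v : ℕ) * ph (-t j) (nm v)) *
        (Real.log (nm v : ℕ) : ℂ) := by ring
      _ = _ := by rw [h6, mul_one]
  simp only [hS]
  exact hmain

end Pool.Agent.Results.MP_4589ac_nt.TwistsShortIntervals
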